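import Pool.Agent.Q178.CoSober.Space

set_option autoImplicit false

/-!
Products of co-sober spaces need not be co-sober.
-/

universe u

namespace Pool.Agent.Results.MP_8d849c_gt.NotProductive

open Q178.CoSober Set Filter Topology

/-- The topology on `G` whose closed sets are `G`, the finite sets, and the unions of `C` with
finite sets. -/
@[instance_reducible]
def topC {G : Type u} (C : Set G) : TopologicalSpace G :=
  TopologicalSpace.ofClosed {A | A = univ ∨ A.Finite ∨ (C ⊆ A ∧ (A \ C).Finite)}
    (Or.inr (Or.inl finite_empty))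
    (by
      intro S hS
      by_cases h1 : ∃ A ∈ S, A.Finite
      · obtain ⟨A, hA, hfin⟩ := h1
        exact Or.inr (Or.inl (hfin.subset (sInter_subset_of_mem hA)))
      · by_cases h2 : ∃ A ∈ S, A ≠ univ
        · obtain ⟨A, hA, hne⟩ := h2
          right
          right
          refine ⟨?_, ?_⟩
          · intro x hx B hB
            rcases hS hB with rfl | h | h
            · trivial
            · exact absurd ⟨B, hB, h⟩ h1
            · exact h.1 hx
          · rcases hS hA with h | h | h
            · exact absurd h hne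
            · exact absurd ⟨A, hA, h⟩ h1
            · exact h.2.subset (sdiff_subset_sdiff_left (sInter_subset_of_mem hA))
        · left
          rw [sInter_eq_univ]
          intro A hA
          by_contra hne
          exact h2 ⟨A, hA, hne⟩)
    (by
      rintro A hA B hB
      rcases hA with rfl | hA | hA
      · left
        simp
      · rcases hB with rfl | hB | hB
        · left
          simp
        · exact Or.inr (Or.inl (hA.union hB))
        · right
          right
          refine ⟨hB.1.trans subset_union_right, ?_⟩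
          rw [union_sdiff_distrib]
          exact (hA.subset sdiff_subset).union hB.2
      · rcases hB with rfl | hB | hB
        · left
          simp
        · right
          right
          refine ⟨hA.1.trans subset_union_left, ?_⟩
          rw [union_sdiff_distrib]
          exact hA.2.union (hB.subset sdiff_subset)
        · right
          right
          refine ⟨hB.1.trans subset_union_right, ?_⟩
          rw [union_sdiff_distrib]
          exact hA.2.union hB.2)

lemma isClosed_topC {G : Type u} {C A : Set G} :
    IsClosed[topC C] A ↔ A = univ ∨ A.Finite ∨ (C ⊆ A ∧ (A \ C).Finite) := by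
  rw [← @isOpen_compl_iff G A (topC C)]
  change Aᶜᶜ ∈ {A | A = univ ∨ A.Finite ∨ (C ⊆ A ∧ (A \ C).Finite)} ↔ _
  rw [compl_compl]
  rfl

lemma t1_topC {G : Type u} (C : Set G) : @T1Space G (topC C) :=
  @T1Space.mk G (topC C) fun x => isClosed_topC.2 (Or.inr (Or.inl (finite_singleton x)))

/-- In the topology `topC C` all sets are compact. -/
lemma compact_topC {G : Type u} (C A : Set G) : @IsCompact G (topC C) A := by
  let _ : TopologicalSpace G := topC C
  rw [isCompact_iff_ultrafilter_le_nhds]
  intro f hf
  rw [le_principal_iff] at hf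
  by_cases hfin : ∃ x, {x} ∈ f
  · obtain ⟨x, hx⟩ := hfin
    refine ⟨x, ?_, ?_⟩
    · obtain ⟨y, hy1, hy2⟩ := f.nonempty_of_mem (inter_mem hf hx)
      rw [mem_singleton_iff] at hy2
      rwa [← hy2]
    · have h1 : (f : Filter G) ≤ pure x := by
        rw [le_pure_iff]
        exact hx
      exact h1.trans (pure_le_nhds x)
  · have hnf : ∀ F : Set G, F.Finite → F ∉ f := by
      intro F hF hFf
      obtain ⟨x, _, hx⟩ := (Ultrafilter.finite_biUnion_mem_iff hF (s := fun x => {x})).1
        (by simpa using hFf)
      exact hfin ⟨x, hx⟩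
    -- an open set whose complement is not in `f` is in `f`
    by_cases hC : C ∈ f
    · obtain ⟨x, hxA, hxC⟩ := f.nonempty_of_mem (inter_mem hf hC)
      refine ⟨x, hxA, ?_⟩
      rw [le_nhds_iff]
      intro U hxU hU
      rw [← compl_compl U]
      refine Ultrafilter.compl_mem_iff_notMem.2 ?_
      rcases isClosed_topC.1 hU.isClosed_compl with h | h | h
      · rw [compl_univ_iff] at h
        rw [h] at hxU
        exact absurd hxU (notMem_empty x)
      · exact hnf _ h
      · exact absurd hxU (h.1 hxC)
    · have hC' : Cᶜ ∈ f := Ultrafilter.compl_mem_iff_notMem.2 hC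
      obtain ⟨x, hxA, hxC⟩ := f.nonempty_of_mem (inter_mem hf hC')
      refine ⟨x, hxA, ?_⟩
      rw [le_nhds_iff]
      intro U hxU hU
      rw [← compl_compl U]
      refine Ultrafilter.compl_mem_iff_notMem.2 ?_
      rcases isClosed_topC.1 hU.isClosed_compl with h | h | h
      · rw [compl_univ_iff] at h
        rw [h] at hxU
        exact absurd hxU (notMem_empty x)
      · exact hnf _ h
      · intro hmem
        apply hnf _ h.2
        exact inter_mem hmem hC'

/-- In a T1 space all sets are saturated. -/
lemma saturated_of_t1 {Y : Type u} [TopologicalSpace Y] [T1Space Y] (A : Set Y) :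
    Saturated A := by
  refine ⟨(fun x => {x}ᶜ) '' Aᶜ, ?_, ?_⟩
  · rintro _ ⟨x, _, rfl⟩
    exact isOpen_compl_singleton
  · ext x
    constructor
    · rintro hx _ ⟨y, hy, rfl⟩ hxy
      rw [mem_singleton_iff] at hxy
      rw [hxy] at hx
      exact hy hx
    · intro h
      by_contra hx
      exact h {x}ᶜ ⟨x, hx, rfl⟩ rfl

lemma up_eq {Y : Type u} [TopologicalSpace Y] [T1Space Y] (k : Y) : up k = {k} := by
  ext y
  simp only [up, mem_ofPred_eq, closure_singleton, mem_singleton_iff]
  exact eq_comm

/-- A T1 space in which all sets are compact is co-sober. -/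
lemma coSober_of_noetherian {Y : Type u} [TopologicalSpace Y] [T1Space Y]
    (h : ∀ A : Set Y, IsCompact A) : IsCoSober Y := by
  refine ⟨inferInstance, fun K hK => ?_⟩
  obtain ⟨k, hk⟩ := hK.isK.nonempty
  refine ⟨k, ?_⟩
  rw [up_eq]
  by_contra hne
  have h2 : (K \ {k}).Nonempty := by
    by_contra hemp
    rw [not_nonempty_iff_eq_empty, sdiff_eq_empty] at hemp
    exact hne (hemp.antisymm (singleton_subset_iff.2 hk))
  rcases hK.irred {k} (K \ {k}) ⟨singleton_nonempty k, h _, saturated_of_t1 _⟩
    ⟨h2, h _, saturated_of_t1 _⟩ (by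
      rw [union_sdiff_cancel (singleton_subset_iff.2 hk)]) with h3 | h3
  · exact hne h3
  · rw [h3] at hk
    exact hk.2 rfl

/-- The index set of the family: the closed subsets of the space `G`. -/
def Idx : Type := {C : Set G // IsClosed C}

/-- The family: `G` with the topologies `topC C`. -/
def Fam (_ : Idx) : Type := G

instance (i : Idx) : TopologicalSpace (Fam i) := topC (G := G) i.1

instance (i : Idx) : T1Space (Fam i) := t1_topC (G := G) i.1

/-- The diagonal map. -/
def Δ (g : G) (i : Idx) : Fam i := g

lemma isInducing_Δ : IsInducing Δ := by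
  refine ⟨le_antisymm ?_ ?_⟩
  · rw [← continuous_iff_le_induced]
    refine continuous_pi fun i => ?_
    rw [continuous_def]
    intro U hU
    have h1 : IsClosed Uᶜ := hU.isClosed_compl
    have h2 : IsClosed[topC (G := G) i.1] (Uᶜ : Set G) := h1
    rw [← isClosed_compl_iff]
    change IsClosed (Uᶜ : Set G)
    rcases isClosed_topC.1 h2 with h | h | h
    · rw [h]
      exact isClosed_univ
    · exact h.isClosed
    · rw [← union_sdiff_cancel h.1]
      exact i.2.union h.2.isClosed
  · intro U hU
    rw [isOpen_induced_iff]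
    let i : Idx := ⟨Uᶜ, hU.isClosed_compl⟩
    refine ⟨(fun f : ∀ i, Fam i => f i) ⁻¹' (U : Set G), ?_, rfl⟩
    have h1 : IsClosed[topC (G := G) i.1] (Uᶜ : Set G) :=
      isClosed_topC.2 (Or.inr (Or.inr ⟨Subset.rfl, by simp [i]⟩))
    let U' : Set (Fam i) := U
    have h2 : IsClosed U'ᶜ := h1
    have h3 : IsOpen U' := isClosed_compl_iff.1 h2
    exact h3.preimage (continuous_apply i)

/-- **Products of co-sober spaces need not be co-sober.** There is a family of T1 spaces, in each
of which all subsets are compact (so that each of them is co-sober), whose product is a T1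
space which is not co-sober. -/
theorem result : ∃ (I : Type) (X : I → Type) (_ : ∀ i, TopologicalSpace (X i)),
    (∀ i, IsCoSober (X i)) ∧ (∀ i, T1Space (X i) ∧ ∀ A : Set (X i), IsCompact A) ∧
    T1Space (∀ i, X i) ∧ ¬ IsCoSober (∀ i, X i) := by
  classical
  have hcompact : ∀ (i : Idx) (A : Set (Fam i)), IsCompact A := fun i A =>
    compact_topC (G := G) i.1 A
  refine ⟨Idx, Fam, inferInstance, fun i => coSober_of_noetherian (hcompact i),
    fun i => ⟨inferInstance, hcompact i⟩, inferInstance, ?_⟩
  intro hco
  have hcomp : ∀ K : Set (∀ i, Fam i), IsCompact K → K ⊆ range Δ → IsCompact (Δ ⁻¹' K) := by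
    intro K hK hKr
    rw [isInducing_Δ.isCompact_iff, image_preimage_eq_of_subset hKr]
    exact hK
  have hirr : KIrreducible (range Δ) := by
    refine ⟨⟨⟨_, ⟨OnePoint.infty, rfl⟩⟩, isCompact_range isInducing_Δ.continuous,
      saturated_of_t1 _⟩, fun K₁ K₂ hK₁ hK₂ h => ?_⟩
    have hs1 : K₁ ⊆ range Δ := by rw [h]; exact subset_union_left
    have hs2 : K₂ ⊆ range Δ := by rw [h]; exact subset_union_right
    have hc1 := isClosed_of_isCompact (hcomp K₁ hK₁.compact hs1)
    have hc2 := isClosed_of_isCompact (hcomp K₂ hK₂.compact hs2)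
    by_contra hne
    push Not at hne
    have hex : ∀ K : Set (∀ i, Fam i), K ⊆ range Δ → range Δ ≠ K → (Δ ⁻¹' K)ᶜ.Nonempty := by
      intro K hKr hne
      by_contra hemp
      rw [not_nonempty_iff_eq_empty, compl_empty_iff] at hemp
      apply hne
      refine Subset.antisymm ?_ hKr
      rintro _ ⟨g, rfl⟩
      have : g ∈ Δ ⁻¹' K := by rw [hemp]; trivial
      exact this
    obtain ⟨g, hg1, hg2⟩ := inter_nonempty_G hc1.isOpen_compl hc2.isOpen_compl
      (hex K₁ hs1 hne.1) (hex K₂ hs2 hne.2)
    have : Δ g ∈ K₁ ∪ K₂ := by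
      rw [← h]
      exact ⟨g, rfl⟩
    rcases this with h3 | h3
    · exact hg1 h3
    · exact hg2 h3
  obtain ⟨k, hk⟩ := hco.cosober _ hirr
  rw [up_eq] at hk
  have h1 : Δ OnePoint.infty ∈ ({k} : Set (∀ i, Fam i)) := by rw [← hk]; exact ⟨_, rfl⟩
  have h2 : Δ (X.o : G) ∈ ({k} : Set (∀ i, Fam i)) := by rw [← hk]; exact ⟨_, rfl⟩
  have h3 : Δ OnePoint.infty = Δ (X.o : G) := by
    rw [mem_singleton_iff] at h1 h2
    rw [h1, h2]
  have h4 : (OnePoint.infty : G) = (X.o : G) := congrFun h3 ⟨∅, isClosed_empty⟩
  exact absurd h4 (OnePoint.infty_ne_coe X.o)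

end Pool.Agent.Results.MP_8d849c_gt.NotProductive
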